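import Mathlib
import Pool.Agent.H933R3.KConn

set_option autoImplicit false

/-!
# Non-evasive 3-balls have no knotted spanning edge

Let `K` be non-evasive and let `e = {u, w}` be a spanning edge.  Flat sections of local systems
over the complement of `e` that are given near `e` extend to the whole complement
(`nonEvasive_sectionsD`), so every loop in the complement of `e` can be pushed into the link of
`e`, which is a circle (`main_loops`).  Hence the knot group of `e` is cyclic.
-/

namespace Pool.Agent.Results.MP_242373_co.NoKnottedEdge

open Pool.Agent.H933R3

/-- There is no non-evasive triangulated 3-ball with a knotted spanning edge. -/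
theorem result : ¬ ∃ (n : ℕ) (K : Finset (Finset (Fin n))) (u w : Fin n),
    IsCx K ∧ IsBall 3 K ∧ NonEvasive K ∧ IsSpanningEdge K u w ∧ IsKnottedEdge K u w := by
  rintro ⟨n, K, u, w, hK, -, hne, hs, y, hy⟩
  exact hy (isCyclic_exterior hK hne hs y)

end Pool.Agent.Results.MP_242373_co.NoKnottedEdge
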